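import Mathlib
import Pool.Agent.L0h15.MN.Core
import Pool.Agent.L0h15.MN.Irr
import Pool.Agent.L0h15.MN.Tup
import Pool.Agent.L0h15.MN.Link

/-!
# The Tate conjecture for products of motives with one maximally degenerate and one nodal prime,
# times an arbitrary variety

Let `V_1, ..., V_r` be the `ℓ`-adic realizations of pure motives over `ℚ` with a symplectic form
(a polarization) `ω_i`, of weight `w_i` and dimension `n_i`, for instance the primitive cohomology in
odd degree of smooth projective varieties `X_i`.  Suppose that for each `i`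

* three prime numbers are places of good reduction, with rational Frobenius polynomials, pure of weight
  `w_i` (by Deligne this is true at all places of good reduction);
* (cusp) at ONE prime number `p_i ≠ ℓ` some inertia element acts by a unipotent matrix with one Jordan
  block (maximally unipotent monodromy), and Frobenius acts on it as it does on tame inertia;
* (node) at ONE prime number `q_i ≠ ℓ` some inertia element acts on `V_i` as a transvection
  (Picard-Lefschetz: `X_i` acquires an ordinary double point modulo `q_i`, of odd dimension).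

Let `L` be any number field and `Z` any smooth projective variety over `L` (`M` is its cohomology in any
degree; `M` can be any finite-dimensional representation of the Galois group of `L`).  Suppose that at some
place above `q_i` the other `V_j` and `Z` have potentially good reduction.

**Theorem (1).**  All Galois invariants in `V_{i_1} ⊗ ... ⊗ V_{i_a} ⊗ M(c)` over `L`, for all
`i_1, ..., i_a` and `c`, are linear combinations of products of the classes of the forms `ω_i` (in pairs of
factors `V_i ⊗ V_i`) with Galois invariant classes of `M(c')` over the same field `L`.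

As `L` can be replaced by its finite extensions, this is true for all Tate classes.  The classes `ω_i` are
algebraic, if the `V_i` are cut out by algebraic correspondences.  So if the cohomology of `X_i` is the sum of
`V_i` and of classes of algebraic cycles (for instance hypersurfaces and complete intersections of odd
dimension, or the mirror quintic), then the Tate conjecture for all `X_1 ^ m_1 × ... × X_r ^ m_r × Z` is
EQUIVALENT to the Tate conjecture for `Z`; in particular it is true for all `X_1 ^ m_1 × ... × X_r ^ m_r`.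

**Theorem (2), (3).**  Let `V_t`, `t ∈ ℚ`, be the members of a one-parameter family with a point of
maximally unipotent monodromy and an ordinary double point: `Δ(a, b) = 0`, `C(a, b) = 0` and `D(a, b) = 0` are
the degenerate fibres, the cusps and the nodes, and for a prime number `p` outside of a finite set `S`
the fibre at `t = a / b` has good reduction, a cusp or a node at `p` if `p ∤ Δ(a, b)`, `p ∣ C(a, b)` or
`p ∣ D(a, b)` (the local monodromy theorem for tame coverings).  This is so for the hypergeometric motives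
with parameters `(α_1, ..., α_n; 0, ..., 0)`, `n` even (`C = a`, `D = a - b`), for the mirror quintic and the
other 13 hypergeometric families of Calabi-Yau threefolds, and for all one-parameter families of Calabi-Yau
threefolds with a cusp and a conifold point.  For `r` such families and the tuples `t = (t_1, ..., t_r)`:

(2) the conclusion of (1) is true for ALL tuples `t` such that `C_i(t_i)` has a prime factor outside of
`S ∪ {ℓ}`, and `D_i(t_i)` has a prime factor `q_i` outside of `S ∪ {ℓ}` which does not divide the other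
`Δ_j(t_j)`, for all `L` and all `Z` over `L` with potentially good reduction at one place above each `q_i`;

(3) for each finite set `T` of prime numbers, the number of the `r`-tuples of height at most `H` for which
it is not true for all number fields `L` and all `Z` over `L` with potentially good reduction at some
place above each prime number outside of `T`, is `O(H ^ (2 r - 1 + ε))`, out of about `c H ^ (2 r)` tuples.

The known results on Tate classes in such families (Serre, Terasoma, André, Cadoret-Tamagawa) are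
about the members outside of thin sets, which are not explicit, and about the fibres only, not about products
with arbitrary varieties.  The theorems `RegularMonodromy` and `RegularCuspFamilies` (`MP_bbcdf5_ag`) need in
addition a Frobenius torus of maximal rank, and do not treat products with `Z`.

The proof.  A subspace `U` of `V_i` which is stable under a subgroup of finite index is the kernel of a power
of the regular nilpotent operator, so it is stable under the Galois group of `ℚ`.  The determinant on `U` is a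
character of this group with algebraic values at three Frobenius elements; by the `ℓ`-adic six exponentials
theorem (library `Pool.Agent.Y115`) it is, up to finite order, a power of the cyclotomic character, given by the
weight.  The monodromy operator and the form `ω_i` give a nondegenerate bilinear form on `U`, and by it the
determinant of the Frobenius element at `p_i` on `U` differs from this value by `p_i ^ (dim U codim U / 2)`.
So `U` is zero or `V_i`.  The transvection at `q_i` acts trivially on `M` and the other `V_j`.  Its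
conjugates by all elements of the Galois group of `L` generate the Lie algebra `sp(V_i)`, as `V_i` is
irreducible for all subgroups of finite index.  So the invariants are killed by all `sp(V_i)`, and the
first fundamental theorem of invariant theory for products of symplectic groups (library
`Pool.Agent.H204R3`) applies.  For (3) we count integers composed of few primes (Rankin's method).
-/

set_option autoImplicit false

namespace Pool.Agent.Results.MP_640417_ag.CuspAndNode

open NumberField Polynomial Matrix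

/-! ### Galois groups -/

/-- the absolute Galois group -/
abbrev AbsGal (F : Type) [Field F] : Type := Gal(AlgebraicClosure F/F)

/-- the absolute Galois group of `ℚ` -/
abbrev GalQ : Type := AbsGal ℚ

/-- the ring of all algebraic integers -/
abbrev AlgInt : Type := 𝓞 (AlgebraicClosure ℚ)

/-- the subfields of an algebraic closure of `F` which contain `F` -/
abbrev SubExt (F : Type) [Field F] : Type := IntermediateField F (AlgebraicClosure F)

/-- `P` is a prime ideal above the prime number `p` -/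
def Above (p : ℕ) (P : Ideal AlgInt) : Prop := P.IsPrime ∧ (p : AlgInt) ∈ P

/-- `g` is in the inertia group at `P` -/
def IsInertia (P : Ideal AlgInt) (g : GalQ) : Prop := ∀ x : AlgInt, g • x - x ∈ P

/-- `g` is an (arithmetic) Frobenius element at the prime ideal `P` above `p` -/
def IsFrobenius (p : ℕ) (P : Ideal AlgInt) (g : GalQ) : Prop := ∀ x : AlgInt, g • x - x ^ p ∈ P

/-- the `ℓ`-adic cyclotomic character -/
noncomputable def cyc (ℓ : ℕ) [Fact ℓ.Prime] (g : GalQ) : ℚ_[ℓ] :=
  ((cyclotomicCharacter (AlgebraicClosure ℚ) ℓ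
    (MulSemiringAction.toRingAut GalQ (AlgebraicClosure ℚ) g) : ℤ_[ℓ]ˣ) : ℤ_[ℓ])

/-! ### Symplectic realizations -/

/-- The `ℓ`-adic realization of a pure motive over `ℚ` with a symplectic form (in a basis): a
continuous representation `ρ` on `ℚ_ℓ ^ n`, and the matrix `J` of an alternating nondegenerate form with values in
`ℚ_ℓ(-w)`. -/
structure SympRealization (ℓ : ℕ) [Fact ℓ.Prime] where
  /-- the dimension -/
  n : ℕ
  /-- the weight -/
  w : ℤ
  /-- the action of the Galois group -/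
  ρ : GalQ →* GL (Fin n) ℚ_[ℓ]
  continuous : Continuous ρ
  /-- the form -/
  J : Matrix (Fin n) (Fin n) ℚ_[ℓ]
  skew : Jᵀ = -J
  nondeg : J.det ≠ 0
  similitude : ∀ g, (ρ g : Matrix (Fin n) (Fin n) ℚ_[ℓ])ᵀ * J *
    (ρ g : Matrix (Fin n) (Fin n) ℚ_[ℓ]) = cyc ℓ g ^ (-w) • J

variable {ℓ : ℕ} [Fact ℓ.Prime]

/-- the matrix of `g` -/
noncomputable def SympRealization.mat (V : SympRealization ℓ) (g : GalQ) :
    Matrix (Fin V.n) (Fin V.n) ℚ_[ℓ] := (V.ρ g : Matrix (Fin V.n) (Fin V.n) ℚ_[ℓ])

/-- the value of the form -/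
noncomputable def SympRealization.form (V : SympRealization ℓ) (x y : Fin V.n → ℚ_[ℓ]) : ℚ_[ℓ] :=
  x ⬝ᵥ V.J *ᵥ y

/-- Good reduction at `p`: the inertia groups above `p` act trivially, and the geometric Frobenius
elements have the same characteristic polynomial, with rational coefficients, whose roots have the
absolute value `p ^ (w / 2)`. -/
def GoodAt (V : SympRealization ℓ) (p : ℕ) : Prop :=
  (∀ P, Above p P → ∀ g, IsInertia P g → V.ρ g = 1) ∧
  ∃ Q : ℚ[X], (∀ z : ℂ, aeval z Q = 0 → ‖z‖ ^ 2 = (p : ℝ) ^ V.w) ∧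
    ∀ P, Above p P → ∀ g, IsFrobenius p P g →
      (V.mat g⁻¹).charpoly = Q.map (algebraMap ℚ ℚ_[ℓ])

/-- Cusp, or maximally unipotent monodromy, at `p`: some inertia element `τ` at some prime ideal
above `p` acts by a unipotent matrix with one Jordan block, and `F τ F⁻¹` acts as `τ ^ p`, for a
Frobenius element `F`. -/
def CuspAt (V : SympRealization ℓ) (p : ℕ) : Prop :=
  ∃ P, Above p P ∧ ∃ F τ, IsFrobenius p P F ∧ IsInertia P τ ∧
    (V.mat τ - 1) ^ V.n = 0 ∧ (V.mat τ - 1) ^ (V.n - 1) ≠ 0 ∧ V.ρ (F * τ * F⁻¹) = V.ρ (τ ^ p)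

/-- Node at `P`: some element `g` of the inertia group acts as a nontrivial transvection (as it
preserves the form, it is sufficient that `g - 1` has rank one). -/
def NodeAt (V : SympRealization ℓ) (P : Ideal AlgInt) : Prop :=
  ∃ g, IsInertia P g ∧ (V.mat g - 1).rank = 1

/-- Potentially good reduction of `V` at `P`. -/
def PotGoodAt (V : SympRealization ℓ) (P : Ideal AlgInt) : Prop :=
  ∃ Δ : Subgroup GalQ, Δ.FiniteIndex ∧ ∀ g ∈ Δ, IsInertia P g → V.ρ g = 1

/-! ### Tate classes on the products with an arbitrary representation -/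

section classes

variable {ι : Type} {L : SubExt ℚ} {M : Type} [AddCommGroup M] [Module ℚ_[ℓ] M]

/-- Potentially good reduction at `P` of a representation of the Galois group of the number field
`L`, for instance the cohomology of a variety over `L` with potentially good reduction at the place of `L`
below `P`: the elements of the inertia group at `P` in some subgroup of finite index act trivially. -/
def PotGoodOver (σ : Representation ℚ_[ℓ] L.fixingSubgroup M) (P : Ideal AlgInt) : Prop :=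
  ∃ Δ : Subgroup L.fixingSubgroup, Δ.FiniteIndex ∧ ∀ g ∈ Δ, IsInertia P (g : GalQ) → σ g = 1

/-- The class `z` in `M(c)` is fixed by the Galois group of `L`. -/
def IsFixed (σ : Representation ℚ_[ℓ] L.fixingSubgroup M) (c : ℤ) (z : M) : Prop :=
  ∀ s : L.fixingSubgroup, cyc ℓ (s : GalQ) ^ c • σ s z = z

/-- The class `f` in `(V ⊗ ... ⊗ V)^∨ ⊗ M(c)`, `V = ⊕ V_i`, with factors indexed by `κ`, that is a multilinear
map from `V` to `M`, is fixed by the Galois group of `L`.  (The dual space of `V_i` is `V_i(w_i)`.) -/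
def IsFixedForm (V : ι → SympRealization ℓ) (σ : Representation ℚ_[ℓ] L.fixingSubgroup M)
    {κ : Type} (c : ℤ)
    (f : MultilinearMap ℚ_[ℓ] (fun _ : κ => ∀ i, Fin (V i).n → ℚ_[ℓ]) M) : Prop :=
  ∀ (s : L.fixingSubgroup) (v : κ → ∀ i, Fin (V i).n → ℚ_[ℓ]),
    f (fun k i => (V i).mat (s : GalQ) *ᵥ v k i) = cyc ℓ (s : GalQ) ^ c • σ s (f v)

/-- `g` is the product of the forms of `V_{d 0}, ..., V_{d (m - 1)}`, placed in pairs of factors given
by the bijection `e`, with a class `z` which is fixed by the Galois group of `L`. -/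
def IsProduct (V : ι → SympRealization ℓ) (σ : Representation ℚ_[ℓ] L.fixingSubgroup M)
    {κ : Type} (c : ℤ)
    (g : MultilinearMap ℚ_[ℓ] (fun _ : κ => ∀ i, Fin (V i).n → ℚ_[ℓ]) M) : Prop :=
  ∃ (m : ℕ) (e : Fin m × Fin 2 ≃ κ) (d : Fin m → ι) (z : M),
    IsFixed σ (c + ∑ l, (V (d l)).w) z ∧
    ∀ v, g v = (∏ l, (V (d l)).form (v (e (l, 0)) (d l)) (v (e (l, 1)) (d l))) • z

/-- All Galois invariant classes over `L` are linear combinations of products of forms with Galois
invariant classes of `M(c')` over `L`. -/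
def ProductsOver (V : ι → SympRealization ℓ) (σ : Representation ℚ_[ℓ] L.fixingSubgroup M) :
    Prop :=
  ∀ (κ : Type) [Fintype κ] (c : ℤ)
    (f : MultilinearMap ℚ_[ℓ] (fun _ : κ => ∀ i, Fin (V i).n → ℚ_[ℓ]) M),
    IsFixedForm V σ c f → f ∈ Submodule.span ℚ_[ℓ] {g | IsProduct V σ c g}

end classes

/-! ### Families -/

/-- the value of a polynomial in two variables at the numerator and the denominator of `t` -/
noncomputable def val (P : MvPolynomial (Fin 2) ℤ) (t : ℚ) : ℤ :=
  MvPolynomial.eval ![t.num, (t.den : ℤ)] P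

/-- A one-parameter family with cusps and nodes: the smooth fibres are those with `Δ(t) ≠ 0`, and for
the prime numbers `p ≠ ℓ` outside of `S`, these fibres have good reduction if `p ∤ Δ(t)`, a cusp if
`p ∣ C(t)`, and a node (at all prime ideals above `p`) if `p ∣ D(t)`. -/
structure IsCuspNodeFamily (V : ℚ → SympRealization ℓ) (Δ C D : MvPolynomial (Fin 2) ℤ)
    (S : Finset ℕ) : Prop where
  good : ∀ t, val Δ t ≠ 0 → ∀ p : ℕ, p.Prime → p ∉ S → p ≠ ℓ → ¬ (p : ℤ) ∣ val Δ t → GoodAt (V t) p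
  cusp : ∀ t, val Δ t ≠ 0 → ∀ p : ℕ, p.Prime → p ∉ S → p ≠ ℓ → (p : ℤ) ∣ val C t → CuspAt (V t) p
  node : ∀ t, val Δ t ≠ 0 → ∀ p : ℕ, p.Prime → p ∉ S → p ≠ ℓ → (p : ℤ) ∣ val D t →
    ∀ P, Above p P → NodeAt (V t) P

theorem cyc_eq (g : GalQ) : (Pool.Agent.Y115.CQ.chiE ℓ ℚ_[ℓ] g : ℚ_[ℓ]) = cyc ℓ g := rfl

/-- the form as a bilinear map -/
noncomputable def bil (V : SympRealization ℓ) :
    (Fin V.n → ℚ_[ℓ]) →ₗ[ℚ_[ℓ]] (Fin V.n → ℚ_[ℓ]) →ₗ[ℚ_[ℓ]] ℚ_[ℓ] := Matrix.toBilin' V.J

theorem bil_apply (V : SympRealization ℓ) (x y : Fin V.n → ℚ_[ℓ]) : bil V x y = V.form x y :=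
  Matrix.toBilin'_apply' V.J x y

theorem bil_alt (V : SympRealization ℓ) (x : Fin V.n → ℚ_[ℓ]) : bil V x x = 0 := by
  have h1 : x ⬝ᵥ V.Jᵀ *ᵥ x = x ⬝ᵥ V.J *ᵥ x := by
    conv_rhs => rw [Matrix.dotProduct_mulVec, dotProduct_comm, ← Matrix.mulVec_transpose]
  rw [V.skew, neg_mulVec, dotProduct_neg] at h1
  rw [bil_apply]
  exact self_eq_neg.1 h1.symm

theorem bil_nondeg (V : SympRealization ℓ) (x : Fin V.n → ℚ_[ℓ]) (h : ∀ y, bil V x y = 0) :
    x = 0 :=
  (LinearMap.BilinForm.nondegenerate_toBilin'_of_det_ne_zero' V.J V.nondeg).1 x h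

theorem bil_mul (V : SympRealization ℓ) (g : GalQ) (x y : Fin V.n → ℚ_[ℓ]) :
    bil V (Pool.Agent.Y115.R.act V.ρ g x) (Pool.Agent.Y115.R.act V.ρ g y) =
      ((Pool.Agent.Y115.CQ.chiE ℓ ℚ_[ℓ] g ^ (-V.w) : ℚ_[ℓ]ˣ) : ℚ_[ℓ]) * bil V x y := by
  rw [bil_apply, bil_apply, Units.val_zpow_eq_zpow_val, cyc_eq]
  unfold SympRealization.form
  rw [Pool.Agent.Y115.R.act_apply, Pool.Agent.Y115.R.act_apply, ← smul_eq_mul, ← dotProduct_smul,
    ← smul_mulVec, ← V.similitude g, ← Matrix.mulVec_mulVec, ← Matrix.mulVec_mulVec]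
  rw [Matrix.dotProduct_mulVec x, Matrix.vecMul_transpose]

theorem act_sub_one (V : SympRealization ℓ) (g : GalQ) :
    Pool.Agent.Y115.R.act V.ρ g - 1 = Matrix.toLinAlgEquiv' (V.mat g - 1) := by
  rw [map_sub, map_one]
  rfl

theorem oneBlock_of (V : SympRealization ℓ) {τ : GalQ} (h1 : (V.mat τ - 1) ^ V.n = 0)
    (h2 : (V.mat τ - 1) ^ (V.n - 1) ≠ 0) :
    Pool.Agent.L0h15.MN.OneBlock (Pool.Agent.Y115.R.act V.ρ τ - 1) := by
  unfold Pool.Agent.L0h15.MN.OneBlock
  rw [Module.finrank_fin_fun, act_sub_one, ← map_pow, ← map_pow, h1, map_zero]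
  refine ⟨rfl, fun h => h2 ?_⟩
  exact Matrix.toLinAlgEquiv'.injective (h.trans (map_zero _).symm)

theorem goodFrob_of (V : SympRealization ℓ) {p : ℕ} (hp : p.Prime) (hpℓ : p ≠ ℓ)
    (h : GoodAt V p) : Pool.Agent.L0h15.MN.GoodFrob V.ρ V.w p := by
  obtain ⟨-, Q, hQ, hF⟩ := h
  obtain ⟨P, hP, hpP, σ, hσ⟩ := Pool.Agent.L0h15.MN.exists_frob hp
  refine ⟨hp, hpℓ, P, σ, Q, hP, hpP, hσ, ?_, hQ⟩
  rw [← hF P ⟨hP, hpP⟩ σ hσ]
  unfold Pool.Agent.Y115.R.act
  rw [Matrix.charpoly_mulVecLin]
  rfl

theorem irreducible_of (V : SympRealization ℓ)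
    (hgood : 3 ≤ {p : ℕ | p.Prime ∧ p ≠ ℓ ∧ GoodAt V p}.encard)
    (hcusp : ∃ p : ℕ, p.Prime ∧ p ≠ ℓ ∧ CuspAt V p) (H : Subgroup GalQ) (hH : H.FiniteIndex)
    (U : Submodule ℚ_[ℓ] (Fin V.n → ℚ_[ℓ]))
    (hU : ∀ h ∈ H, ∀ x ∈ U, Pool.Agent.Y115.R.act V.ρ h x ∈ U) : U = ⊥ ∨ U = ⊤ := by
  obtain ⟨A, hA, hA3⟩ := Set.exists_subset_encard_eq hgood
  obtain ⟨a, b, c, hab, hac, hbc, rfl⟩ := Set.encard_eq_three.1 hA3
  obtain ⟨p, hp, hpℓ, P, hP, F, τ, hF, hτ, h1, h2, h3⟩ := hcusp
  refine Pool.Agent.L0h15.MN.strong_irr V.ρ V.continuous V.w ![a, b, c] ?_ ?_ (bil V)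
    (bil_nondeg V) (bil_mul V) p hp hpℓ P hP.1 hP.2 F τ hF hτ (oneBlock_of V h1 h2) h3 H hH U hU
  · intro i j hij
    fin_cases i <;> fin_cases j <;> simp_all
  · intro i
    have h4 : ∀ x ∈ ({a, b, c} : Set ℕ), Pool.Agent.L0h15.MN.GoodFrob V.ρ V.w x := fun x hx =>
      goodFrob_of V (hA hx).1 (hA hx).2.1 (hA hx).2.2
    fin_cases i
    · exact h4 a (by simp)
    · exact h4 b (by simp)
    · exact h4 c (by simp)

/-- Part (1). -/
theorem criterion {ι : Type} [Fintype ι] [DecidableEq ι] (V : ι → SympRealization ℓ)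
    (hgood : ∀ i, 3 ≤ {p : ℕ | p.Prime ∧ p ≠ ℓ ∧ GoodAt (V i) p}.encard)
    (hcusp : ∀ i, ∃ p : ℕ, p.Prime ∧ p ≠ ℓ ∧ CuspAt (V i) p)
    (L : SubExt ℚ) [FiniteDimensional ℚ L] (M : Type) [AddCommGroup M] [Module ℚ_[ℓ] M]
    [FiniteDimensional ℚ_[ℓ] M] (σ : Representation ℚ_[ℓ] L.fixingSubgroup M)
    (hnode : ∀ i, ∃ (q : ℕ) (P : Ideal AlgInt), q.Prime ∧ q ≠ ℓ ∧ Above q P ∧ NodeAt (V i) P ∧
      (∀ j, j ≠ i → PotGoodAt (V j) P) ∧ PotGoodOver σ P) : ProductsOver V σ := by
  classical
  have hL : (L.fixingSubgroup : Subgroup GalQ).FiniteIndex :=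
    Pool.Agent.L0h15.MN.finiteIndex_fixingSubgroup L
  intro κ _ c f hf
  have key := Pool.Agent.L0h15.MN.products (k := ℚ_[ℓ]) (V := fun i => Fin (V i).n → ℚ_[ℓ])
    (Γ := L.fixingSubgroup)
    (r := fun i => (Pool.Agent.L0h15.MN.rep (V i).ρ).comp (L.fixingSubgroup).subtype)
    (χ := (Pool.Agent.Y115.CQ.chiE ℓ ℚ_[ℓ]).comp (L.fixingSubgroup).subtype)
    (w := fun i => (V i).w) (ω := fun i => bil (V i)) (fun i x => bil_alt (V i) x)
    (fun i x h => bil_nondeg (V i) x h) (fun i s x y => bil_mul (V i) s x y)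
    (fun i H hH U hU => by
      have hH' : (H.map (L.fixingSubgroup).subtype).FiniteIndex := by
        refine ⟨?_⟩
        rw [Subgroup.index_map_subtype]
        exact mul_ne_zero hH.index_ne_zero hL.index_ne_zero
      refine irreducible_of (V i) (hgood i) (hcusp i) _ hH' U ?_
      rintro _ ⟨h, hh, rfl⟩ x hx
      exact hU h hh x hx) σ (fun i => by
      obtain ⟨q, P, hq, hqℓ, hP, ⟨g, hg, hrk⟩, hj, Δ, hΔ, hσ⟩ := hnode i
      have hj' : ∀ j, ∃ Δ : Subgroup GalQ, Δ.FiniteIndex ∧
          (j ≠ i → ∀ g ∈ Δ, IsInertia P g → (V j).ρ g = 1) := by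
        intro j
        by_cases hji : j = i
        · exact ⟨⊤, inferInstance, fun h => absurd hji h⟩
        · obtain ⟨Δ, h1, h2⟩ := hj j hji
          exact ⟨Δ, h1, fun _ => h2⟩
      choose Δj hΔj hΔj' using hj'
      have hmap : (Δ.map (L.fixingSubgroup).subtype).FiniteIndex := by
        refine ⟨?_⟩
        rw [Subgroup.index_map_subtype]
        exact mul_ne_zero hΔ.index_ne_zero hL.index_ne_zero
      have hinf : (⨅ j, Δj j).FiniteIndex := Subgroup.finiteIndex_iInf hΔj
      have hN : ((Δ.map (L.fixingSubgroup).subtype) ⊓ ⨅ j, Δj j).FiniteIndex := inferInstance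
      set N := (Δ.map (L.fixingSubgroup).subtype) ⊓ ⨅ j, Δj j with hNdef
      have hNc : N.normalCore.FiniteIndex := inferInstance
      set m := N.normalCore.index with hm
      have hm0 : m ≠ 0 := hNc.index_ne_zero
      have hgm : g ^ m ∈ N := Subgroup.normalCore_le N (Subgroup.pow_index_mem _ g)
      have hgI : IsInertia P (g ^ m) := Pool.Agent.L0h15.MN.inertia_pow hg m
      obtain ⟨s, hsΔ, hs⟩ := (Subgroup.mem_inf.1 hgm).1
      have hs' : (s : GalQ) = g ^ m := hs
      have hT : ∀ x y, bil (V i) (Pool.Agent.Y115.R.act (V i).ρ g x)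
          (Pool.Agent.Y115.R.act (V i).ρ g y) = bil (V i) x y := by
        intro x y
        rw [bil_mul, Pool.Agent.L0h15.MN.chiE_inertia hq hqℓ hP.1 hP.2 hg, _root_.one_zpow,
          Units.val_one, one_mul]
      obtain ⟨u, a, hu, ha, hua⟩ := Pool.Agent.L0h15.MN.transvection_of_rank_one (bil_alt (V i))
        (fun x h => bil_nondeg (V i) x h) (Pool.Agent.Y115.R.act (V i).ρ g) hT (by
          rw [act_sub_one]
          exact hrk)
      refine ⟨s, ?_, ?_, fun j hji => ?_, u, (m : ℚ_[ℓ]) * a, hu,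
        mul_ne_zero (Nat.cast_ne_zero.2 hm0) ha, fun x => ?_⟩
      · rw [MonoidHom.comp_apply, Subgroup.subtype_apply, hs']
        exact Pool.Agent.L0h15.MN.chiE_inertia hq hqℓ hP.1 hP.2 hgI
      · exact hσ s hsΔ (by rw [hs']; exact hgI)
      · have h1 : (V j).ρ (s : GalQ) = 1 := by
          rw [hs']
          exact hΔj' j hji _ (by
            have h2 := (Subgroup.mem_inf.1 hgm).2
            rw [Subgroup.mem_iInf] at h2
            exact h2 j) hgI
        rw [MonoidHom.comp_apply, Subgroup.subtype_apply, Pool.Agent.L0h15.MN.rep_apply]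
        refine LinearMap.ext fun x => ?_
        rw [Pool.Agent.Y115.R.act_apply, h1, Units.val_one, one_mulVec]
        rfl
      · rw [MonoidHom.comp_apply, Subgroup.subtype_apply, hs', map_pow,
          Pool.Agent.L0h15.MN.rep_apply]
        exact Pool.Agent.L0h15.MN.transvection_pow (bil_alt (V i)) hua m x) c f (fun s v => by
      have h1 := hf s v
      rw [← cyc_eq, ← Units.val_zpow_eq_zpow_val] at h1
      exact h1)
  refine Submodule.span_mono ?_ key
  rintro g ⟨m, e, d, z, hz, hg⟩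
  refine ⟨m, e, d, z, fun s => ?_, fun v => ?_⟩
  · have h1 := hz s
    rw [Units.val_zpow_eq_zpow_val] at h1
    exact h1
  · rw [hg v]
    congr 1
    exact Finset.prod_congr rfl fun l _ => bil_apply (V (d l)) _ _

/-- **The Tate conjecture for products of motives with one maximally degenerate and one nodal
prime, times an arbitrary variety.** -/
theorem result (ℓ : ℕ) [Fact ℓ.Prime] {ι : Type} [Fintype ι] [DecidableEq ι] :
    -- (1) the criterion
    (∀ V : ι → SympRealization ℓ,
      (∀ i, 3 ≤ {p : ℕ | p.Prime ∧ p ≠ ℓ ∧ GoodAt (V i) p}.encard) →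
      (∀ i, ∃ p : ℕ, p.Prime ∧ p ≠ ℓ ∧ CuspAt (V i) p) →
      ∀ (L : SubExt ℚ) [FiniteDimensional ℚ L] (M : Type) [AddCommGroup M] [Module ℚ_[ℓ] M]
        [FiniteDimensional ℚ_[ℓ] M] (σ : Representation ℚ_[ℓ] L.fixingSubgroup M),
        (∀ i, ∃ (q : ℕ) (P : Ideal AlgInt), q.Prime ∧ q ≠ ℓ ∧ Above q P ∧ NodeAt (V i) P ∧
          (∀ j, j ≠ i → PotGoodAt (V j) P) ∧ PotGoodOver σ P) →
        ProductsOver V σ) ∧
    -- families
    ∀ (V : ι → ℚ → SympRealization ℓ) (Δ C D : ι → MvPolynomial (Fin 2) ℤ) (S : Finset ℕ),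
      (∀ i, IsCuspNodeFamily (V i) (Δ i) (C i) (D i) S) →
      -- (2) the explicit condition
      (∀ t : ι → ℚ, (∀ i, val (Δ i) (t i) ≠ 0) →
        (∀ i, ∃ p : ℕ, p.Prime ∧ p ∉ S ∧ p ≠ ℓ ∧ (p : ℤ) ∣ val (C i) (t i)) →
        ∀ (L : SubExt ℚ) [FiniteDimensional ℚ L] (M : Type) [AddCommGroup M] [Module ℚ_[ℓ] M]
          [FiniteDimensional ℚ_[ℓ] M] (σ : Representation ℚ_[ℓ] L.fixingSubgroup M),
          (∀ i, ∃ q : ℕ, q.Prime ∧ q ∉ S ∧ q ≠ ℓ ∧ (q : ℤ) ∣ val (D i) (t i) ∧
            (∀ j, j ≠ i → ¬ (q : ℤ) ∣ val (Δ j) (t j)) ∧ ∃ P, Above q P ∧ PotGoodOver σ P) →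
          ProductsOver (fun i => V i (t i)) σ) ∧
      -- (3) the number of exceptions
      ((∀ i, Δ i ≠ 0 ∧ 0 < (C i).totalDegree ∧ 0 < (D i).totalDegree) → Nonempty ι →
        ∀ (T : Finset ℕ) (ε : ℝ), 0 < ε → ∃ K : ℝ, ∀ H : ℕ, 1 ≤ H →
          (Nat.card {t : ι → ℚ // (∀ i, |(t i).num| ≤ H ∧ (t i).den ≤ H) ∧
            ¬ ∀ (L : SubExt ℚ) [FiniteDimensional ℚ L] (M : Type) [AddCommGroup M]
              [Module ℚ_[ℓ] M] [FiniteDimensional ℚ_[ℓ] M]
              (σ : Representation ℚ_[ℓ] L.fixingSubgroup M),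
              (∀ q : ℕ, q.Prime → q ∉ T → ∃ P, Above q P ∧ PotGoodOver σ P) →
              (∀ i, val (Δ i) (t i) ≠ 0) ∧ ProductsOver (fun i => V i (t i)) σ} : ℝ) ≤
            K * (H : ℝ) ^ (2 * (Fintype.card ι : ℝ) - 1 + ε)) := by
  classical
  refine ⟨fun V hgood hcusp L _ M _ _ _ σ hnode => criterion V hgood hcusp L M σ hnode,
    fun V Δ C D S hfam => ?_⟩
  have h2 : ∀ t : ι → ℚ, (∀ i, val (Δ i) (t i) ≠ 0) →
        (∀ i, ∃ p : ℕ, p.Prime ∧ p ∉ S ∧ p ≠ ℓ ∧ (p : ℤ) ∣ val (C i) (t i)) →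
        ∀ (L : SubExt ℚ) [FiniteDimensional ℚ L] (M : Type) [AddCommGroup M] [Module ℚ_[ℓ] M]
          [FiniteDimensional ℚ_[ℓ] M] (σ : Representation ℚ_[ℓ] L.fixingSubgroup M),
          (∀ i, ∃ q : ℕ, q.Prime ∧ q ∉ S ∧ q ≠ ℓ ∧ (q : ℤ) ∣ val (D i) (t i) ∧
            (∀ j, j ≠ i → ¬ (q : ℤ) ∣ val (Δ j) (t j)) ∧ ∃ P, Above q P ∧ PotGoodOver σ P) →
          ProductsOver (fun i => V i (t i)) σ := by
    intro t ht hC L _ M _ _ _ σ hD
    refine criterion (fun i => V i (t i)) (fun i => ?_) (fun i => ?_) L M σ (fun i => ?_)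
    · have hfin : {p : ℕ | p ∈ insert ℓ S ∨ p ∣ (val (Δ i) (t i)).natAbs}.Finite := by
        refine Set.Finite.union (Finset.finite_toSet (insert ℓ S)) ?_
        exact (Nat.divisors (val (Δ i) (t i)).natAbs).finite_toSet.subset fun p hp =>
          Nat.mem_divisors.2 ⟨hp, Int.natAbs_ne_zero.2 (ht i)⟩
      have hinf : {p : ℕ | p.Prime ∧ p ≠ ℓ ∧ GoodAt (V i (t i)) p}.Infinite := by
        refine (Nat.infinite_setOfPred_prime.sdiff hfin).mono ?_
        rintro p ⟨hp, hp'⟩
        simp only [Set.mem_ofPred_eq, Finset.mem_insert, not_or] at hp'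
        refine ⟨hp, hp'.1.1, (hfam i).good _ (ht i) p hp hp'.1.2 hp'.1.1 fun h => hp'.2 ?_⟩
        exact Int.natCast_dvd.1 h
      rw [hinf.encard_eq]
      exact le_top
    · obtain ⟨p, hp, hpS, hpℓ, hpC⟩ := hC i
      exact ⟨p, hp, hpℓ, (hfam i).cusp _ (ht i) p hp hpS hpℓ hpC⟩
    · obtain ⟨q, hq, hqS, hqℓ, hqD, hqΔ, P, hP, hPσ⟩ := hD i
      refine ⟨q, P, hq, hqℓ, hP, (hfam i).node _ (ht i) q hq hqS hqℓ hqD P hP, fun j hj => ?_, hPσ⟩
      exact ⟨⊤, inferInstance, fun g _ hg =>
        ((hfam j).good _ (ht j) q hq hqS hqℓ (hqΔ j hj)).1 P hP g hg⟩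
  refine ⟨h2, fun hnc hne T ε hε => ?_⟩
  obtain ⟨K, hK⟩ := Pool.Agent.L0h15.MN.count_generic Δ C D (fun i => (hnc i).1)
    (fun i => (hnc i).2.1) (fun i => (hnc i).2.2) (insert ℓ (S ∪ T)) hε
  refine ⟨K, fun H hH => le_trans ?_ (hK H hH)⟩
  have hfin : Finite {t : ι → ℚ // (∀ i, |(t i).num| ≤ H ∧ (t i).den ≤ H) ∧
      ¬ Pool.Agent.L0h15.MN.Generic Δ C D (insert ℓ (S ∪ T)) (fun _ => True) t} := by
    have h3 : Set.Finite {t : ℚ | |t.num| ≤ H ∧ t.den ≤ H} := by
      refine Set.Finite.of_injOn (f := fun t : ℚ => (t.num, t.den))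
        (t := (↑(Finset.Icc (-(H : ℤ)) H ×ˢ Finset.Icc 0 H) : Set (ℤ × ℕ))) ?_ ?_
        (Finset.finite_toSet _)
      · rintro t ⟨h4, h5⟩
        rw [Finset.mem_coe, Finset.mem_product, Finset.mem_Icc, Finset.mem_Icc]
        exact ⟨abs_le.1 h4, Nat.zero_le _, h5⟩
      · intro s _ t _ hst
        exact Rat.ext (congrArg Prod.fst hst) (congrArg Prod.snd hst)
    have h4 : Set.Finite {t : ι → ℚ | ∀ i, |(t i).num| ≤ H ∧ (t i).den ≤ H} := by
      have h5 := Set.Finite.pi (fun _ : ι => h3)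
      refine h5.subset fun t ht => ?_
      intro i _
      exact ht i
    exact (h4.subset fun t ht => ht.1).to_subtype
  rw [Nat.cast_le]
  refine Nat.card_le_card_of_injective
    (fun t : {t : ι → ℚ // (∀ i, |(t i).num| ≤ H ∧ (t i).den ≤ H) ∧
            ¬ ∀ (L : SubExt ℚ) [FiniteDimensional ℚ L] (M : Type) [AddCommGroup M]
              [Module ℚ_[ℓ] M] [FiniteDimensional ℚ_[ℓ] M]
              (σ : Representation ℚ_[ℓ] L.fixingSubgroup M),
              (∀ q : ℕ, q.Prime → q ∉ T → ∃ P, Above q P ∧ PotGoodOver σ P) →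
              (∀ i, val (Δ i) (t i) ≠ 0) ∧ ProductsOver (fun i => V i (t i)) σ} =>
      (⟨t.1, t.2.1, fun hgen => t.2.2 ?_⟩ : {t : ι → ℚ //
        (∀ i, |(t i).num| ≤ H ∧ (t i).den ≤ H) ∧
      ¬ Pool.Agent.L0h15.MN.Generic Δ C D (insert ℓ (S ∪ T)) (fun _ => True) t})) ?_
  · intro L _ M _ _ _ σ hσ
    refine ⟨fun i => (hgen i).1, h2 t.1 (fun i => (hgen i).1) (fun i => ?_) L M σ fun i => ?_⟩
    · obtain ⟨-, ⟨p, hp, hpT, hpC⟩, -⟩ := hgen i
      rw [Finset.mem_insert, Finset.mem_union, not_or, not_or] at hpT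
      exact ⟨p, hp, hpT.2.1, hpT.1, hpC⟩
    · obtain ⟨-, -, q, hq, hqT, -, hqD, hqΔ⟩ := hgen i
      rw [Finset.mem_insert, Finset.mem_union, not_or, not_or] at hqT
      exact ⟨q, hq, hqT.2.1, hqT.1, hqD, hqΔ, hσ q hq hqT.2.2⟩
  · intro s t hst
    exact Subtype.ext (congrArg (fun x => x.1) hst)

end Pool.Agent.Results.MP_640417_ag.CuspAndNode
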