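import Pool.Agent.L0h10.RY.Conv

/-!
# The square and the codimension two classes on the fourth power of an abelian variety decide

Let `k` be an algebraic closure of a field `K` of finite type over `ℚ`, embedded into the field of
complex numbers, let `X` be an abelian variety over `k` of dimension `g`, defined over `K`, let `ℓ` be
a prime number and `Γ` the Galois group of `k` over `K`.

**Theorem.** (1) Suppose that the elements of the centre of the algebra of the Tate endomorphisms of
`H^1(X, ℚ_ℓ)` (those which commute with an open subgroup of `Γ`; by Faltings the algebra is
`ℚ_ℓ ⊗ End(X)`) are self-adjoint, that is, that `X` has no simple factor of type IV. If the Tate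
conjecture at `ℓ` holds for the square `X ^ 2`, and the Tate classes of codimension two on the fourth
power `X ^ 4` are combinations of algebraic classes, then the Tate conjecture at `ℓ` holds for all
powers of `X` (and then the Hodge classes on the powers of `X` which are Tate classes are algebraic).
The same is true if the Tate conjecture at `ℓ` holds for the one power `X ^ N`, where

* (2) `N = max(4, 2 g)` if the centre of the Lie algebra of the operators which kill the Tate classes
  on all powers of `X` is zero (semisimple monodromy),
* (3) `N = max(8, 4 (h g ^ 2) ^ g)` in general, where `h` is the height of this Lie algebra, the least
  positive integer such that it is spanned, modulo commutators, by elements with integral eigenvalues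
  between `-h` and `h` on `H^1(X)` (by the theorem of Pink `h = 1`).

Faltings' theorem that `H^1(X, ℚ_ℓ)` is a semisimple representation of `Γ` is taken as a hypothesis.
Besides it, the hypotheses are trivial facts, which say that the abstract data (the action `G` of the
compact group `Γ` on `ℚ_ℓ ⊗ H(X ^ n, ℚ)`) come from geometry: the classes of algebraic cycles are
Tate classes, the form of the Hodge-Riemann relations on `H(X, ℚ_ℓ)` is invariant under an open
subgroup of `Γ` up to the cyclotomic character, and the action is continuous. No theorem on the
image of the Galois group (Hodge-Tate decomposition, cocharacters of Serre and Pink, weights, Deligne's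
theorem on absolute Hodge classes) is used. Without such theorems the two conditions in (1) cannot be
weakened to one of them by the method: the third symmetric power of the standard representation of
`SL_2` and the standard representation of `Sp_4` have the same invariants in the exterior algebra of
two copies (the cohomology of `X ^ 2`), and the third exterior power of the standard representation
of `SL_6` has the same invariants of degree at most four for the group `SL_6` and for its extension by
an outer automorphism.

The proof of (1):

1. Let `V = H^1(X)` with complex coefficients (by an isomorphism of the algebraic closure of `ℚ_ℓ`
   with `ℂ`). The cohomology of `X ^ n` is the exterior algebra of `V ^ n`, so that the tensors on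
   `V` of even degree `2 j` are the classes of degree `2 j` on the powers of `X`. Let `A` be the
   system of the algebraic classes on the powers of `X`. Algebraic classes are Hodge
   classes, so by the positivity of the polarisation `A` consists of all tensors fixed by the matrices
   which fix it, and the group of these matrices is stable under adjoints. Let `g` be the Lie algebra
   of the matrices which kill the Tate classes on all powers, and `g_A` the one of `A`.
2. Consider the radical of the trace form of `g` on `V`. It consists of nilpotent matrices (a
   matrix and its replicas, given by complex conjugation of the eigenvalues) and is stable under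
   `Γ`. The subspace of `V` which it kills is stable and has a stable complement, and by Engel's
   theorem the radical kills `V`.
3. Hence the projector from `End(V)` to the image of `g` is a combination of Tate classes of
   codimension two on `X ^ 4`, thus of algebraic classes. As `V` generates `H(X)`, this shows that
   `g` is an ideal of `g_A`, stable under the adjunction given by the polarisation. The elements of
   the orthogonal complement of `g` in `g_A` are, on `V`, in the centre of the algebra of the Tate
   endomorphisms, hence self-adjoint; but they are also anti-self-adjoint. So `g = g_A`.
4. The tensors of even degree killed by `g` are Tate classes: near the identity a continuous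
   representation is the exponential of its derivative (Lie theory over `ℚ_ℓ`). Since the Weil
   operator is in the exponential of `g_A = g`, all tensors killed by `g` have even degree.
5. The roots and weights of `g` on `V`, the highest weight vectors in the exterior powers of `V` with
   at most `g` factors, and the reflections show that a matrix `p` which fixes `A` (so it normalises
   `g_A = g`) is a product of an element of the closure of the group of `g` and of a diagonalisable
   matrix `z` which commutes with `g` and the Tate endomorphisms. For this it is used that `p` fixes
   the Tate classes on `X ^ 2`. The matrix `z` acts by signs on the weight vectors, and an argument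
   about weights and the root lattice shows that it fixes all Tate classes, since it fixes those
   on `X ^ 2`. So the Tate classes are fixed by the matrices which fix `A`.

In (2) and (3) the projector is treated in the same way. In (2) one has `g = g_A` because the
determinants of the eigenspaces of the elements of the complement would be Tate classes. In (3) a
small relation (Siegel's lemma) between the characters of the centre is used, whose coordinates are
bounded by the height.

No theory of algebraic groups is used; everything is proved from the definitions.
-/

open CategoryTheory AlgebraicGeometry

universe u v

namespace Pool.Agent.Results.MP_640417_ag.FourthPowerDecidesTate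

open Pool.Agent.H914 Pool.Agent.H914.VarClass Pool.Agent.H914.VarClass.Obj
  Pool.Agent.H914.WeilCohomology Pool.Agent.Y121.AHS Pool.Agent.L0h10.TW Pool.Agent.L0h10.RX

open Pool.Agent.N996.FP (RForm IsPolarisation OfAbelianType)
open Pool.Agent.L0h10.RT (formL)

variable {k : Type u} [Field k] {𝒱 : VarClass k} {ops : CycleOps 𝒱}

/-- **The square and the classes of codimension two on the fourth power of an abelian variety decide
the Tate conjecture for all its powers.** -/
theorem result (T : HodgeTheory ops) (X : 𝒱.Obj) (hX : OfAbelianType T X)
    (ψ : RForm T.W X) (hψ : IsPolarisation T X ψ)
    (ℓ : ℕ) [Fact ℓ.Prime] [Algebra T.W.K ℚ_[ℓ]]
    (Γ : Type v) [Group Γ] [TopologicalSpace Γ] [IsTopologicalGroup Γ] [CompactSpace Γ]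
    (G : GaloisAction (powers T X ℚ_[ℓ]) Γ) (h1 : AlgebraicClassesAreTate G)
    (h2 : IsInvariant G (formL ℚ_[ℓ] ψ)) (h3 : IsContinuous G) (h4 : IsSemisimple G)
    (hT : (CentreSelfAdjoint G (formL ℚ_[ℓ] ψ) ∧ TateConjecture G 1 ∧
        ∀ x, IsTate G 3 2 x → IsComb ℚ_[ℓ] ((powers T X ℚ_[ℓ]).alg 3 2) x) ∨
      (SemisimpleMonodromy G ∧ TateConjecture G (max 4 (2 * X.dim) - 1)) ∨
        TateConjecture G (max 8 (4 * (max 1 (height G) * X.dim ^ 2) ^ X.dim) - 1))
    (n : ℕ) :
    TateConjecture G n ∧
      (HodgeClassesAreTate G → HodgeConjecture (powers T X ℚ_[ℓ]) n) := by
  obtain ⟨θ⟩ := Pool.Agent.L0h10.TS.exists_theta ℓ
  exact Pool.Agent.L0h10.RY.square G θ hψ hX h1 h2 h3 h4 hT n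

end Pool.Agent.Results.MP_640417_ag.FourthPowerDecidesTate
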