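import Pool.Agent.L0h10.TX.Conv2

/-!
# The Mumford-Tate conjecture for an abelian variety is decided by the endomorphisms of its middle
# cohomology

Let `k` be an algebraic closure of a field `K` of finite type over `ℚ`, embedded into the field of
complex numbers, let `X` be an abelian variety of dimension `g` over `k` which is defined over `K`, with
any endomorphism ring, let `ℓ` be a prime number and `Γ` the Galois group of `k` over `K`.

By Poincaré duality the Tate classes on `X × X` in the Künneth component
`H^g(X) ⊗ H^g(X)` of `H^(2g)(X × X)` are the endomorphisms of `H^g(X, ℚ_ℓ)` which commute with an open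
subgroup of `Γ`, and the Hodge classes in this component are the endomorphisms of the Hodge structure
`H^g(X, ℚ)`. The analogous statement for `H^1(X)` instead of `H^g(X)`, that the Tate classes in
`H^1(X) ⊗ H^1(X)` are combinations of classes of divisors, is the theorem of Faltings.

**Theorem.**

1. The Tate classes on all powers of `X`, in all degrees, are combinations of Hodge classes (the
   Mumford-Tate conjecture for `X` at `ℓ`) if and only if this is so for the Tate classes in
   `H^g(X) ⊗ H^g(X)`. In other words the Mumford-Tate conjecture is equivalent to the formula
   `End_U(H^g(X, ℚ_ℓ)) = ℚ_ℓ ⊗ End_Hodge(H^g(X, ℚ))`, for small open subgroups `U` of `Γ`; it depends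
   only on the dimension of the space of the endomorphisms of one representation.
2. If the Tate classes in `H^g(X) ⊗ H^g(X)` on `X × X` are algebraic, then for every `n` the Tate
   conjecture at `ℓ` for `X ^ n` (in all degrees) is equivalent to the Hodge conjecture for `X ^ n`.

The theorem uses known theorems about abelian varieties, which appear as hypotheses on the abstract
data (the action `G` of the group `Γ` on `ℚ_ℓ ⊗ H(X ^ n, ℚ)`):

* the Hodge classes on the powers of `X` are Tate classes (Deligne);
* the action of the open subgroups on `H(X, ℚ_ℓ)` is semisimple (Faltings);
* the classes on `X × X` which are killed by all weak Hodge operators are combinations of Tate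
  classes (it follows from the theorem of Pink: the connected `ℓ`-adic algebraic monodromy group is
  generated by weak Hodge cocharacters);
* only if there are factors of type IV: the centre of the Lie algebra of the Hodge group kills the
  Tate classes (Vasiu, Ullmo-Yafaev: the centres of the Mumford-Tate group and of the monodromy group
  have the same identity component).

The proof. Let `V = H^1(X)` and `A = H(X)`, the exterior algebra of `V`, with complex coefficients
(by an isomorphism of the algebraic closure of `ℚ_ℓ` with the field of complex numbers). Let `S` be
the set of the weak Hodge operators, `h` the Lie algebra generated by `S` and `L` the Lie algebra of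
the Hodge group.

1. `S` is contained in `L`, as the Hodge classes are Tate classes. `S` acts semisimply on `A`: the sum
   `W` of the minimal `S`-stable subspaces is stable under the Galois group, which permutes `S`, hence
   (Faltings) it is the image of a projector which commutes with an open subgroup and with the degrees.
   Such a projector is a combination of Tate classes on `X × X`, which are killed by `S`; so its kernel
   is `S`-stable and contains no minimal `S`-stable subspaces, and `W = A`. By Pink's theorem and the
   hypothesis the operators of `A^g` which commute with `S` are combinations of Hodge endomorphisms.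
2. Let `D ⊇ L` be the Lie algebra of the derivations of `A` which commute with all Hodge
   endomorphisms of `A` and preserve the form. Let `y` be in `S`; its eigenvalues on `V` are `1` and
   `-1`, both of multiplicity `g`, and its eigenvalues on `D` are `2, 0, -2`. The generator `u` of the
   top exterior power of the eigenspace of `y` on `V` with the eigenvalue `1` is an element of `A^g`.
   Let `X` be an element of `D` of degree `-2`. By the semisimplicity and the double commutant
   theorem for `A^g` the vector `X u` is in the `h`-module generated by `u`, hence `X u = Y u` for some
   `Y` in `h` of degree `-2`, as `u` has maximal weight; the trace formula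
   `Z (X - Y) u = tr_V(Z (X - Y)) u` for `Z` in `D` of degree `2` and the positivity of the
   polarisation give `X = Y`. So `[y, D] ⊆ h`, and `h` is an ideal of `D`.
3. The orthogonal complement of `h` in `D` commutes with `h`, hence with `L`, since a derivation of
   `A` is determined by its restriction to `A^g`. It is zero if the centre is self-adjoint; in general
   its elements in `L` are central in `L` and kill the Tate classes. So `L` kills the Tate classes on
   all powers of `X`, and these are combinations of Hodge classes.
-/

open CategoryTheory AlgebraicGeometry

universe u v

namespace Pool.Agent.Results.MP_640417_ag.MiddleDegreeMumfordTate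

open Pool.Agent.H914 Pool.Agent.H914.VarClass Pool.Agent.H914.VarClass.Obj
  Pool.Agent.H914.WeilCohomology Pool.Agent.Y121.AHS Pool.Agent.L0h10.TW Pool.Agent.L0h10.TX

open Pool.Agent.N996.FP (RForm IsPolarisation OfAbelianType SelfAdjointCentre)

variable {k : Type u} [Field k] {𝒱 : VarClass k} {ops : CycleOps 𝒱}

/-- **The middle degree decides the Mumford-Tate conjecture.** -/
theorem result (T : HodgeTheory ops) (X : 𝒱.Obj) (ψ : RForm T.W X)
    (hψ : IsPolarisation T X ψ) (hX : OfAbelianType T X)
    (ℓ : ℕ) [Fact ℓ.Prime] [Algebra T.W.K ℚ_[ℓ]]
    (Γ : Type v) [Group Γ] [TopologicalSpace Γ] [IsTopologicalGroup Γ]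
    (G : GaloisAction (powers T X ℚ_[ℓ]) Γ) (h1 : HodgeClassesAreTate G) (h2 : ActsSemisimply G)
    (h3 : WeakHodgeOperatorsGenerate G) (h4 : SelfAdjointCentre T X ψ ∨ CentreKillsTate G) :
    (BidegreeTateClassesAre G X.dim ((powers T X ℚ_[ℓ]).hodge 1 X.dim) ↔
      TateClassesAreHodge G) ∧
    (BidegreeTateClassesAre G X.dim ((powers T X ℚ_[ℓ]).alg 1 X.dim) →
      ∀ n, TateConjecture G n ↔ HodgeConjecture (powers T X ℚ_[ℓ]) n) := by
  obtain ⟨θ⟩ := Pool.Agent.L0h10.TS.exists_theta ℓ
  exact main G θ hψ hX h1 h2 h3 h4

end Pool.Agent.Results.MP_640417_ag.MiddleDegreeMumfordTate
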