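import Pool.Agent.L0h10.RV.Conv

/-!
# One power of a variety decides the strong Tate conjecture for all its powers

Let `k` be an algebraic closure of a field `K` of finite type over `ℚ`, embedded into the field of
complex numbers, let `X` be any smooth projective variety over `k`, defined over `K`, let `ℓ` be a
prime number and `Γ` the Galois group of `k` over `K`. Let `t` be the codimension in `H(X, ℚ_ℓ)` of
the subspace spanned by the Tate classes, and let

* `N = max(4, t)` if the elements of the centre of the algebra of the endomorphisms of `H(X, ℚ_ℓ)`
  which commute with an open subgroup of `Γ` (and preserve the degrees) are self-adjoint,
* `N = max(4, t ^ 2 / 4)` if the centre of the Lie algebra of the operators which kill the Tate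
  classes on all powers of `X` is zero (semisimple monodromy),
* `N = max(8, (h t) ^ t)` in general, where `h` is the height of this Lie algebra, the least positive
  integer such that it is spanned, modulo commutators, by elements with integral eigenvalues between
  `-h` and `h` on `H(X)`.

**Theorem.** If the strong Tate conjecture at `ℓ` holds for the one power `X ^ N` (the Tate classes on
`X ^ N` are algebraic, and the action of the open subgroups of `Γ` on `H(X, ℚ_ℓ)` is semisimple), then
it holds for all powers of `X` (and then the Hodge classes on the powers of `X` which are Tate
classes are algebraic).

The hypothesis of semisimplicity can be replaced by the hypothesis that the `Γ`-stable lines in the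
cohomology of `X ^ n`, `n ≤ N`, are spanned by Tate classes; then semisimplicity is a conclusion. For
real fields `K` this hypothesis is known to be true (Deligne, Faltings, Sen, Tate, Serre, Weil, see the
file `RV/Abs`), and a variety `X` over `k` can be studied through the product of `X` and its complex
conjugate, which is defined over a real field. It is the observation which Moonen used to deduce the
semisimplicity of all representations `H(X)` from the Tate conjecture for all varieties.

Nothing else is assumed: the other hypotheses are trivial facts, which say that the abstract data (the
action `G` of the compact group `Γ` on `ℚ_ℓ ⊗ H(X ^ n, ℚ)`) come from geometry. The classes of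
algebraic cycles are Tate classes, the form of the Hodge-Riemann relations on `H(X, ℚ_ℓ)` is invariant
under an open subgroup of `Γ`, and the action is continuous. No theorem on Galois representations
(Hodge-Tate decomposition, weights, independence of `ℓ`) is used. Hodge-Tate theory shows in addition
that `h` is at most the maximum of `|p - q|` with `H^(p,q)(X) ≠ 0`; the theorem does not depend on
it, the existence of `h` is proved here.

The method is the one of the theorem on Hodge classes in the file `MP_e12fcd_ag/BoundedPower`, but the
invariants of the Galois group are not Hodge classes (this is a part of the Mumford-Tate conjecture),
so nothing can be deduced from that theorem. The proof: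

1. Let `V = H(X)` with complex coefficients (by an isomorphism of the algebraic closure of `ℚ_ℓ` with
   `ℂ`). Let `A` be the smallest system of tensors of `V` which contains the algebraic classes on
   the powers of `X` up to `X ^ N` and is closed under products, permutations and contractions.
   Algebraic classes are Hodge classes, so by the positivity of the polarisation `A` consists of all
   tensors fixed by the matrices which fix it, and the group of these matrices is stable under
   adjoints. Let `g` be the Lie algebra of the matrices which kill the Tate classes on all powers.
2. Suppose that the stable lines consist of Tate classes. The radical of the trace form of `g`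
   consists of nilpotent matrices, and the sum `U` of their images has dimension at most `t`. The line
   of the minors of `U` is stable under `Γ`, so it is spanned by a Tate class on a power of `X` with
   at most `N` factors, so by an algebraic class. So the projector to `U` along its orthogonal
   complement is a combination of Tate classes, it commutes with `g`, and by Engel's theorem `U = 0`.
3. Hence, or by the hypothesis of semisimplicity, the projector from `End(V)` to `g` is a combination
   of Tate classes on `X ^ 4`. So `g` is an ideal of the Lie algebra of `A` and stable under the
   adjunction given by the polarisation. It is spanned by normal matrices, and these are combinations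
   of elements of `g` with integral eigenvalues, since `g` is the annihilator of a set of tensors. So
   the height exists. In the situation of 2 it follows that the `Γ`-stable subspaces of `gV`, of
   dimension at most `t`, are `g`-stable and have `Γ`-stable complements (Maschke, Clifford), and then
   `H(X)` is semisimple.
4. The tensors of even degree killed by `g` are Tate classes: near the identity a continuous
   representation is the exponential of its derivative (Lie theory over `ℚ_ℓ`). In the first two cases
   `g` is the whole Lie algebra of `A` (in the second one, because the determinants of the
   eigenspaces of the elements of the complement would be invariants of small degree), and then there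
   are no invariants of odd degree; in the third case the squares of such invariants are used.
5. The roots and weights of `g` on `V`, the highest weight vectors in the exterior powers of `V` with
   at most `t / 2` factors, and the reflections show that a matrix `p` which fixes `A` is a product of
   an element of the closure of the group of `g` and of a diagonalisable matrix `z` which commutes
   with `g` and the Tate endomorphisms. An argument about weights and the root lattice bounds the
   numbers of factors of the invariants which are needed to prove that `z` fixes all Tate classes (see
   `MP_e12fcd_ag/BoundedPower`); in general it uses a small relation (Siegel's lemma) between the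
   characters of the centre, whose coordinates are bounded by the height.

No theory of algebraic groups is used; everything is proved from the definitions.
-/

open CategoryTheory AlgebraicGeometry

universe u v

namespace Pool.Agent.Results.MP_640417_ag.OnePowerDecidesTate

open Pool.Agent.H914 Pool.Agent.H914.VarClass Pool.Agent.H914.VarClass.Obj
  Pool.Agent.H914.WeilCohomology Pool.Agent.Y121.AHS Pool.Agent.L0h10.TW Pool.Agent.L0h10.RS
  Pool.Agent.L0h10.RV

open Pool.Agent.N996.FP (RForm IsPolarisation)
open Pool.Agent.L0h10.RT (formL)

variable {k : Type u} [Field k] {𝒱 : VarClass k} {ops : CycleOps 𝒱}

/-- **One power decides the strong Tate conjecture for all powers.** -/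
theorem result (T : HodgeTheory ops) (X : 𝒱.Obj) (ψ : RForm T.W X) (hψ : IsPolarisation T X ψ)
    (ℓ : ℕ) [Fact ℓ.Prime] [Algebra T.W.K ℚ_[ℓ]]
    (Γ : Type v) [Group Γ] [TopologicalSpace Γ] [IsTopologicalGroup Γ] [CompactSpace Γ]
    (G : GaloisAction (powers T X ℚ_[ℓ]) Γ) (h1 : AlgebraicClassesAreTate G)
    (h2 : IsInvariant G (formL ℚ_[ℓ] ψ)) (h3 : IsContinuous G) (N : ℕ)
    (hN : (CentreSelfAdjoint G (formL ℚ_[ℓ] ψ) ∧ N = max 4 (transcendental G)) ∨
      (SemisimpleMonodromy G ∧ N = max 4 (transcendental G ^ 2 / 4)) ∨
        N = max 8 ((max 1 (height G) * transcendental G) ^ transcendental G))
    (h4 : ActsSemisimply G ∨ StableLinesAreTate G N) (hT : TateConjecture G (N - 1)) :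
    ActsSemisimply G ∧ ∀ n, TateConjecture G n ∧
      (HodgeClassesAreTate G → HodgeConjecture (powers T X ℚ_[ℓ]) n) := by
  obtain ⟨θ⟩ := Pool.Agent.L0h10.TS.exists_theta ℓ
  exact bounded3 G θ hψ h1 h2 h3 hN h4 hT

end Pool.Agent.Results.MP_640417_ag.OnePowerDecidesTate
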